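import Mathlib

/-!
# The Lipschitz Baumgartner axioms imply `2 ^ ℵ₀ = 2 ^ ℵ₁`

Both of the axioms `BA_Lip(ω^ω)` and `BA_Lip(2^ω)` imply `2 ^ ℵ₀ = 2 ^ ℵ₁`. The nodes of the tree
`2^{<ω₁}` (there are continuum many) are coded by reals. The branch through `x : ω₁ → 2` then gives
an `ℵ₁`-dense set `B x`, and the sets `B x` have pairwise countable intersections. Hence Lipschitz
maps taking one fixed `ℵ₁`-dense set injectively into the sets `B x` are pairwise different, while
there are only continuum many Lipschitz maps.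
-/

set_option autoImplicit false

open Cardinal

universe u

namespace Pool.Agent.Results.MP_84ba36_lc.ContinuumPowers

/-- Lipschitz maps (constant `1`) of the space `D^ω`: the first `k` values of `f x` depend only on
the first `k` values of `x`. -/
def IsLip {D : Type} (f : (ℕ → D) → (ℕ → D)) : Prop :=
  ∀ (k : ℕ) (x y : ℕ → D), (∀ i < k, x i = y i) → ∀ i < k, f x i = f y i

/-- `ℵ₁`-dense subsets of the space `D^ω`: every nonempty basic open set contains exactly `ℵ₁` many
elements of the set. -/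
def AlephOneDense {D : Type} (A : Set (ℕ → D)) : Prop :=
  ∀ (k : ℕ) (s : ℕ → D), #({a : ℕ → D | a ∈ A ∧ ∀ i < k, a i = s i} : Set (ℕ → D)) = ℵ₁

/-- The axiom `BA_Lip(D^ω)`. -/
def BALip (D : Type) : Prop :=
  ∀ A B : Set (ℕ → D), AlephOneDense A → AlephOneDense B →
    ∃ f : (ℕ → D) → (ℕ → D), IsLip f ∧ Set.InjOn f A ∧ f '' A ⊆ B

section

variable {D : Type}

/-- Spreading a sequence: each value occurs at infinitely many places. -/
def spread (z : ℕ → D) : ℕ → D := fun n => z (Nat.unpair n).1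

/-- Equality of two sequences at all but finitely many places. -/
def Tail (x y : ℕ → D) : Prop := ∃ m, ∀ n, m ≤ n → x n = y n

theorem tail_spread {z w : ℕ → D} (h : Tail (spread z) (spread w)) : z = w := by
  obtain ⟨m, hm⟩ := h
  funext k
  have h1 := hm (Nat.pair k m) (Nat.right_le_pair k m)
  simpa [spread, Nat.unpair_pair] using h1

theorem tail_symm {x y : ℕ → D} (h : Tail x y) : Tail y x := by
  obtain ⟨m, hm⟩ := h
  exact ⟨m, fun n hn => (hm n hn).symm⟩

theorem tail_trans {x y z : ℕ → D} (h : Tail x y) (h' : Tail y z) : Tail x z := by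
  obtain ⟨m, hm⟩ := h
  obtain ⟨m', hm'⟩ := h'
  exact ⟨max m m', fun n hn => (hm n (le_trans (le_max_left _ _) hn)).trans
    (hm' n (le_trans (le_max_right _ _) hn))⟩

theorem countable_tail [Countable D] (z : ℕ → D) : {w : ℕ → D | Tail w z}.Countable := by
  classical
  have h : {w : ℕ → D | Tail w z} ⊆
      Set.range (fun l : List D => fun n => if h : n < l.length then l[n] else z n) := by
    rintro w ⟨m, hm⟩
    refine ⟨(List.range m).map w, ?_⟩
    funext n
    by_cases hn : n < m
    · simp [hn]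
    · simp only [List.length_map, List.length_range, hn, dite_false]
      exact (hm n (not_lt.1 hn)).symm
  exact (Set.countable_range _).mono h

/-- The set of the first uncountable cardinal. -/
abbrev W : Type := (ℵ₁ : Cardinal.{0}).ord.ToType

theorem countable_Iio (a : W) : (Set.Iio a).Countable := by
  have h : #(Set.Iio a) < ℵ₁ := Cardinal.mk_Iio_toType_ord_lt a
  have h2 : #(Set.Iio a) < Order.succ ℵ₀ := h.trans_eq Cardinal.succ_aleph0.symm
  exact Cardinal.le_aleph0_iff_set_countable.1 (Order.lt_succ_iff.1 h2)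

theorem mk_W : #W = ℵ₁ := Cardinal.mk_ord_toType _

/-- The node at level `a` of the tree `2^{<ω₁}` on the branch through `x`. -/
def node (x : W → Bool) (a : W) : Σ a : W, (Set.Iio a → Bool) := ⟨a, fun b => x b.1⟩

theorem node_eq {x y : W → Bool} {a b : W} (h : node x a = node y b) :
    a = b ∧ ∀ c < a, x c = y c := by
  have hab : a = b := congrArg Sigma.fst h
  subst hab
  refine ⟨rfl, fun c hc => ?_⟩
  have h2 := eq_of_heq (Sigma.mk.inj h).2
  exact congrFun h2 ⟨c, hc⟩

theorem mk_nodes : #(Σ a : W, (Set.Iio a → Bool)) ≤ 𝔠 := by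
  rw [Cardinal.mk_sigma]
  refine (Cardinal.sum_le_mk_mul_iSup _).trans ?_
  have h1 : (⨆ a : W, #(Set.Iio a → Bool)) ≤ 𝔠 := by
    refine ciSup_le' fun a => ?_
    have h2 : #(Set.Iio a) ≤ ℵ₀ := Cardinal.le_aleph0_iff_set_countable.2 (countable_Iio a)
    have h3 : #(Set.Iio a → Bool) = 2 ^ #(Set.Iio a) := by simp
    rw [h3, ← Cardinal.two_power_aleph0]
    exact Cardinal.power_le_power_left two_ne_zero h2
  calc #W * (⨆ a : W, #(Set.Iio a → Bool)) ≤ 𝔠 * 𝔠 := by
        refine mul_le_mul' ?_ h1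
        rw [mk_W]
        exact Cardinal.aleph_one_le_continuum
    _ = 𝔠 := Cardinal.continuum_mul_self

theorem mk_space [Countable D] [Nontrivial D] : #(ℕ → D) = 𝔠 := by
  have h1 : #D ≤ ℵ₀ := Cardinal.mk_le_aleph0
  have h2 : 2 ≤ #D := Cardinal.two_le_iff.2 (exists_pair_ne D)
  apply le_antisymm
  · have : #(ℕ → D) = #D ^ ℵ₀ := by simp
    rw [this]
    calc #D ^ ℵ₀ ≤ ℵ₀ ^ ℵ₀ := Cardinal.power_le_power_right h1
      _ = 𝔠 := Cardinal.aleph0_power_aleph0
  · have : #(ℕ → D) = #D ^ ℵ₀ := by simp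
    rw [this, ← Cardinal.two_power_aleph0]
    exact Cardinal.power_le_power_right h2

variable (D) in
theorem exists_code [Countable D] [Nontrivial D] : Nonempty ((Σ a : W, (Set.Iio a → Bool)) ↪ (ℕ → D)) := by
  have h : #(Σ a : W, (Set.Iio a → Bool)) ≤ #(ℕ → D) := by
    rw [mk_space]
    exact mk_nodes
  exact h

/-- The `ℵ₁`-dense set given by the branch through `x`. -/
def BSet (g : (Σ a : W, (Set.Iio a → Bool)) ↪ (ℕ → D)) (x : W → Bool) : Set (ℕ → D) :=
  {w | ∃ a : W, Tail w (spread (g (node x a)))}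

theorem bset_dense [Countable D] (g : (Σ a : W, (Set.Iio a → Bool)) ↪ (ℕ → D)) (x : W → Bool) :
    AlephOneDense (BSet g x) := by
  classical
  intro k s
  apply le_antisymm
  · have h1 : {a : ℕ → D | a ∈ BSet g x ∧ ∀ i < k, a i = s i} ⊆
        ⋃ a : W, {w : ℕ → D | Tail w (spread (g (node x a)))} := by
      rintro w ⟨⟨a, ha⟩, -⟩
      exact Set.mem_iUnion.2 ⟨a, ha⟩
    refine (Cardinal.mk_le_mk_of_subset h1).trans ?_
    refine (Cardinal.mk_iUnion_le_sum_mk).trans ?_
    refine (Cardinal.sum_le_mk_mul_iSup _).trans ?_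
    have h2 : (⨆ a : W, #({w : ℕ → D | Tail w (spread (g (node x a)))} : Set (ℕ → D))) ≤ ℵ₀ :=
      ciSup_le' fun a => Cardinal.le_aleph0_iff_set_countable.2 (countable_tail _)
    calc #W * (⨆ a : W, #({w : ℕ → D | Tail w (spread (g (node x a)))} : Set (ℕ → D)))
        ≤ ℵ₁ * ℵ₀ := mul_le_mul' mk_W.le h2
      _ = ℵ₁ := Cardinal.mul_aleph0_eq (Cardinal.aleph0_le_aleph 1)
  · let e : W → ({a : ℕ → D | a ∈ BSet g x ∧ ∀ i < k, a i = s i} : Set (ℕ → D)) := fun a =>
      ⟨fun n => if n < k then s n else spread (g (node x a)) n,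
        ⟨a, k, fun n hn => by simp [not_lt.2 hn]⟩, fun i hi => by simp [hi]⟩
    have he : Function.Injective e := by
      intro a b hab
      have h1 := congrArg Subtype.val hab
      have h2 : Tail (spread (g (node x a))) (spread (g (node x b))) := by
        refine ⟨k, fun n hn => ?_⟩
        have h3 := congrFun h1 n
        simpa [e, not_lt.2 hn] using h3
      have h3 := g.injective (tail_spread h2)
      exact (node_eq h3).1
    calc ℵ₁ = #W := mk_W.symm
      _ ≤ _ := Cardinal.mk_le_of_injective he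

theorem bset_inter [Countable D] (g : (Σ a : W, (Set.Iio a → Bool)) ↪ (ℕ → D)) {x y : W → Bool}
    (hxy : x ≠ y) : (BSet g x ∩ BSet g y).Countable := by
  obtain ⟨c, hc⟩ := Function.ne_iff.1 hxy
  have h : BSet g x ∩ BSet g y ⊆
      ⋃ a ∈ Set.Iic c, {w : ℕ → D | Tail w (spread (g (node x a)))} := by
    rintro w ⟨⟨a, ha⟩, ⟨b, hb⟩⟩
    have h1 := g.injective (tail_spread (tail_trans (tail_symm ha) hb))
    have h2 := node_eq h1
    refine Set.mem_iUnion₂.2 ⟨a, ?_, ha⟩
    by_contra h3
    exact hc (h2.2 c (not_le.1 h3))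
  refine Set.Countable.mono h ?_
  refine Set.Countable.biUnion ?_ fun a _ => countable_tail _
  have h1 : Set.Iic c = insert c (Set.Iio c) := by
    ext b
    simp [le_iff_eq_or_lt]
  rw [h1]
  exact (countable_Iio c).insert c

/-- There are at most continuum many Lipschitz maps. -/
theorem mk_lip [Countable D] [Nontrivial D] : #{f : (ℕ → D) → (ℕ → D) // IsLip f} ≤ 𝔠 := by
  classical
  obtain ⟨d⟩ : Nonempty D := inferInstance
  let r : {f : (ℕ → D) → (ℕ → D) // IsLip f} → (List D → (ℕ → D)) := fun f l =>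
    f.1 (fun n => if h : n < l.length then l[n] else d)
  have hr : Function.Injective r := by
    intro f f' hff
    apply Subtype.ext
    funext x n
    have h1 := congrFun (congrFun hff ((List.range (n + 1)).map x)) n
    have h2 : ∀ i < n + 1, x i = (fun m => if h : m < ((List.range (n + 1)).map x).length then
        ((List.range (n + 1)).map x)[m] else d) i := by
      intro i hi
      simp [hi]
    have h3 := f.2 (n + 1) x _ h2 n (Nat.lt_succ_self n)
    have h4 := f'.2 (n + 1) x _ h2 n (Nat.lt_succ_self n)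
    rw [h3, h4]
    exact h1
  refine (Cardinal.mk_le_of_injective hr).trans ?_
  have h5 : #(List D → (ℕ → D)) = 𝔠 ^ #(List D) := by
    rw [← mk_space (D := D)]
    simp
  rw [h5]
  have h6 : #(List D) ≤ ℵ₀ := Cardinal.mk_le_aleph0
  calc 𝔠 ^ #(List D) ≤ 𝔠 ^ ℵ₀ :=
        Cardinal.power_le_power_left Cardinal.continuum_ne_zero h6
    _ = 𝔠 := Cardinal.continuum_power_aleph0

theorem main [Countable D] [Nontrivial D] (h : BALip D) : (2 : Cardinal.{0}) ^ ℵ₀ = 2 ^ ℵ₁ := by
  obtain ⟨g⟩ := exists_code D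
  have hA : ∀ x : W → Bool, ∃ f : (ℕ → D) → (ℕ → D), IsLip f ∧
      Set.InjOn f (BSet g fun _ => false) ∧ f '' (BSet g fun _ => false) ⊆ BSet g x :=
    fun x => h _ _ (bset_dense g _) (bset_dense g x)
  choose f hf1 hf2 hf3 using hA
  have hinj : Function.Injective
      (fun x : W → Bool => (⟨f x, hf1 x⟩ : {f : (ℕ → D) → (ℕ → D) // IsLip f})) := by
    intro x y hxy
    by_contra hne
    have hfe : f x = f y := congrArg Subtype.val hxy
    have h1 : f x '' (BSet g fun _ => false) ⊆ BSet g x ∩ BSet g y := by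
      refine Set.subset_inter (hf3 x) ?_
      rw [hfe]
      exact hf3 y
    have h2 := (bset_inter g hne).mono h1
    have h3 := Set.countable_of_injective_of_countable_image (hf2 x) h2
    have h4 : #(BSet g fun _ => false) ≤ ℵ₀ := Cardinal.le_aleph0_iff_set_countable.2 h3
    obtain ⟨d⟩ : Nonempty D := inferInstance
    have h5 := bset_dense g (fun _ => false) 0 fun _ => d
    have h6 : ℵ₁ ≤ #(BSet g fun _ => false) := by
      rw [← h5]
      exact Cardinal.mk_le_mk_of_subset fun w hw => hw.1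
    exact absurd (h6.trans h4) (not_le.2 Cardinal.aleph0_lt_aleph_one)
  apply le_antisymm
  · exact Cardinal.power_le_power_left two_ne_zero (Cardinal.aleph0_le_aleph 1)
  · have h1 := (Cardinal.mk_le_of_injective hinj).trans mk_lip
    have h2 : #(W → Bool) = 2 ^ ℵ₁ := by
      rw [← mk_W]
      simp
    rw [h2] at h1
    rw [Cardinal.two_power_aleph0]
    exact h1

end

/-- Each one of the axioms `BA_Lip(ω^ω)`, `BA_Lip(2^ω)` implies `2 ^ ℵ₀ = 2 ^ ℵ₁`. -/
theorem result :
    (BALip ℕ → (2 : Cardinal.{0}) ^ ℵ₀ = 2 ^ ℵ₁) ∧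
    (BALip Bool → (2 : Cardinal.{0}) ^ ℵ₀ = 2 ^ ℵ₁) :=
  ⟨main, main⟩

end Pool.Agent.Results.MP_84ba36_lc.ContinuumPowers
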